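import Pool.Agent.Q240.CD.Stm

/-!
# Project CD, job Zer: the zeros of the extremal polynomial
-/

set_option autoImplicit false

open Polynomial Filter Topology Finset MeasureTheory

namespace Pool.Agent.Q95.CD

open Pool.Agent.Q240.CD

theorem gpos {g M : ℕ → ℝ} {n : ℕ} (h : PM g M n) (j : ℕ) : 0 < g j :=
  h.pos.trans_le (h.mono.monotone (Nat.zero_le j))

/-- summability of the form -/
theorem summ {g M : ℕ → ℝ} {n : ℕ} (h : PM g M n) (p : ℝ[X]) (hp : p.natDegree ≤ 2 * n) :
    Summable fun j => M j * p.eval (g j) := by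
  refine Summable.of_norm_bounded (g := fun j => (∑ i ∈ p.support, |p.coeff i|) *
    (M j * (1 + g j) ^ (2 * n))) (h.sum.mul_left _) fun j => ?_
  have hg := gpos h j
  rw [Real.norm_eq_abs, abs_mul, abs_of_nonneg (h.nonneg j), Polynomial.eval_eq_sum,
    Polynomial.sum_def]
  have h1 : |∑ i ∈ p.support, p.coeff i * g j ^ i| ≤
      (∑ i ∈ p.support, |p.coeff i|) * (1 + g j) ^ (2 * n) := by
    refine (Finset.abs_sum_le_sum_abs _ _).trans ?_
    rw [Finset.sum_mul]
    refine Finset.sum_le_sum fun i hi => ?_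
    rw [abs_mul, abs_of_nonneg (pow_nonneg hg.le i)]
    refine mul_le_mul_of_nonneg_left ?_ (abs_nonneg _)
    calc g j ^ i ≤ (1 + g j) ^ i := pow_le_pow_left₀ hg.le (by linarith) i
      _ ≤ (1 + g j) ^ (2 * n) := pow_le_pow_right₀ (by linarith)
          ((Polynomial.le_natDegree_of_mem_supp i hi).trans hp)
  calc M j * |∑ i ∈ p.support, p.coeff i * g j ^ i| ≤
      M j * ((∑ i ∈ p.support, |p.coeff i|) * (1 + g j) ^ (2 * n)) :=
        mul_le_mul_of_nonneg_left h1 (h.nonneg j)
    _ = _ := by ring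

/-- the basic contradiction -/
theorem contra {g M : ℕ → ℝ} {n : ℕ} (h : PM g M n) {t : ℝ} {q : ℝ[X]} (hq : Ex g M n t q)
    (r : ℝ[X]) (hr : r.natDegree ≤ n) (hr0 : r.eval t = 0)
    (hpos : ∀ j, 0 ≤ (q * r).eval (g j))
    (hz : ∀ j, (q * r).eval (g j) = 0 → q.eval (g j) = 0) : False := by
  obtain ⟨hq1, hq2, hq3⟩ := hq
  have h1 := hq3 r hr hr0
  have hs := summ h (q * r) (Polynomial.natDegree_mul_le.trans (by omega))
  have hnn : ∀ j, 0 ≤ M j * (q * r).eval (g j) := fun j => mul_nonneg (h.nonneg j) (hpos j)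
  have h2 : ∀ j, M j * (q * r).eval (g j) = 0 := by
    intro j
    have h3 := hs.le_tsum j (fun i _ => hnn i)
    unfold Lam at h1
    rw [h1] at h3
    exact le_antisymm h3 (hnn j)
  have h4 : Lam g M (q * q) = 0 := by
    unfold Lam
    have : ∀ j, M j * (q * q).eval (g j) = 0 := by
      intro j
      rcases mul_eq_zero.1 (h2 j) with h5 | h5
      · rw [h5, zero_mul]
      · rw [Polynomial.eval_mul, hz j h5, zero_mul, mul_zero]
    simp only [this, tsum_zero]
  have h5 : q ≠ 0 := by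
    rintro rfl
    simp at hq2
  have := h.dfn q hq1 h5
  linarith

/-- no factor of degree two without change of sign at the points -/
theorem two {g M : ℕ → ℝ} {n : ℕ} (h : PM g M n) {t : ℝ} {q : ℝ[X]} (ht : ∀ j, g j ≠ t)
    (hq : Ex g M n t q) (u : ℝ[X]) (hu : u.Monic) (hd : u.natDegree = 2) (hdvd : u ∣ q)
    (hpos : ∀ j, 0 ≤ u.eval (g j)) : False := by
  obtain ⟨T, rfl⟩ := hdvd
  have hT : T ≠ 0 := by
    rintro rfl
    have := hq.2.1
    simp at this
  have hdeg : (u * T).natDegree = 2 + T.natDegree := by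
    rw [hu.natDegree_mul' hT, hd]
  have hq1 := hq.1
  rw [hdeg] at hq1
  refine contra h hq ((X - C t) ^ 2 * T) ?_ ?_ ?_ ?_
  · refine Polynomial.natDegree_mul_le.trans ?_
    have : ((X - C t) ^ 2 : ℝ[X]).natDegree = 2 := by
      rw [Polynomial.natDegree_pow, Polynomial.natDegree_X_sub_C]
    omega
  · simp
  · intro j
    simp only [eval_mul, eval_pow, eval_sub, eval_X, eval_C]
    have : u.eval (g j) * T.eval (g j) * ((g j - t) ^ 2 * T.eval (g j)) =
      u.eval (g j) * ((g j - t) * T.eval (g j)) ^ 2 := by ring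
    rw [this]
    exact mul_nonneg (hpos j) (sq_nonneg _)
  · intro j hj
    simp only [eval_mul, eval_pow, eval_sub, eval_X, eval_C] at hj ⊢
    have h2 : (g j - t) ^ 2 ≠ 0 := pow_ne_zero 2 (sub_ne_zero.2 (ht j))
    rcases mul_eq_zero.1 hj with h3 | h3
    · exact h3
    · rcases mul_eq_zero.1 h3 with h4 | h4
      · exact absurd h4 h2
      · rw [h4, mul_zero]

theorem real_rooted {g M : ℕ → ℝ} {n : ℕ} (h : PM g M n) {t : ℝ} {q : ℝ[X]} (ht : ∀ j, g j ≠ t)
    (hq : Ex g M n t q) (z : ℂ) (hz : aeval z q = 0) : z.im = 0 := by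
  by_contra hne
  have hm : (X ^ 2 - C (2 * z.re) * X + C (‖z‖ ^ 2) : ℝ[X]).Monic := by monicity!
  have hd : (X ^ 2 - C (2 * z.re) * X + C (‖z‖ ^ 2) : ℝ[X]).natDegree = 2 := by compute_degree!
  refine two h ht hq _ hm hd (quadratic_dvd_of_aeval_eq_zero_im_ne_zero q hz hne) fun j => ?_
  simp only [eval_add, eval_sub, eval_pow, eval_X, eval_mul, eval_C]
  have h1 : ‖z‖ ^ 2 = z.re ^ 2 + z.im ^ 2 := by
    rw [← Complex.normSq_eq_norm_sq, Complex.normSq_apply]
    ring
  rw [h1]
  nlinarith [sq_nonneg (g j - z.re), sq_nonneg z.im]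

theorem ne_zero {g M : ℕ → ℝ} {n : ℕ} {t : ℝ} {q : ℝ[X]} (hq : Ex g M n t q) : q ≠ 0 := by
  rintro rfl
  have := hq.2.1
  simp at this

theorem splits_of_real {q : ℝ[X]} (hr : ∀ z : ℂ, aeval z q = 0 → z.im = 0) :
    q.Splits := by
  by_cases h0 : q = 0
  · rw [h0]; exact Polynomial.Splits.zero
  rw [splits_iff_splits]
  right
  intro f hf hfq
  have h2 : f.degree ≠ 0 := fun h => hf.not_isUnit (isUnit_iff_degree_eq_zero.2 h)
  obtain ⟨z, hz⟩ := IsAlgClosed.exists_aeval_eq_zero ℂ f h2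
  have h3 : aeval z q = 0 := by
    obtain ⟨s, rfl⟩ := hfq
    rw [map_mul, hz, zero_mul]
  have h4 := hr z h3
  have h5 : (z.re : ℂ) = z := by
    apply Complex.ext <;> simp [h4]
  have h6 : f.eval z.re = 0 := by
    rw [← h5, ← Complex.coe_algebraMap, Polynomial.aeval_algebraMap_apply,
      Complex.coe_algebraMap, Complex.ofReal_eq_zero] at hz
    simpa using hz
  exact degree_eq_one_of_irreducible_of_root hf (x := z.re) h6

theorem roots_nodup {g M : ℕ → ℝ} {n : ℕ} (h : PM g M n) {t : ℝ} {q : ℝ[X]} (ht : ∀ j, g j ≠ t)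
    (hq : Ex g M n t q) : q.roots.Nodup := by
  rw [Multiset.nodup_iff_count_le_one]
  intro a
  by_contra hc
  push Not at hc
  rw [count_roots] at hc
  have h1 : (X - C a) ^ 2 ∣ q := (le_rootMultiplicity_iff (ne_zero hq)).1 hc
  refine two h ht hq ((X - C a) ^ 2) ((monic_X_sub_C a).pow 2) ?_ h1 fun j => ?_
  · rw [Polynomial.natDegree_pow, Polynomial.natDegree_X_sub_C]
  · simp only [eval_pow, eval_sub, eval_X, eval_C]
    exact sq_nonneg _

theorem between {g M : ℕ → ℝ} {n : ℕ} (h : PM g M n) {t : ℝ} {q : ℝ[X]} (ht : ∀ j, g j ≠ t)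
    (hq : Ex g M n t q) {c c' : ℝ} (hc : q.eval c = 0) (hc' : q.eval c' = 0) (hcc : c < c') :
    ∃ j, c < g j ∧ g j < c' := by
  by_contra hne
  push Not at hne
  have h1 : (X - C c) ∣ q := dvd_iff_isRoot.2 hc
  have h2 : (X - C c') ∣ q := dvd_iff_isRoot.2 hc'
  have h3 : IsCoprime (X - C c) (X - C c' : ℝ[X]) :=
    Polynomial.isCoprime_X_sub_C_of_isUnit_sub (sub_ne_zero.2 hcc.ne).isUnit
  refine two h ht hq ((X - C c) * (X - C c')) ((monic_X_sub_C c).mul (monic_X_sub_C c')) ?_
    (h3.mul_dvd h1 h2) fun j => ?_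
  · rw [(monic_X_sub_C c).natDegree_mul (monic_X_sub_C c')]
    simp
  · simp only [eval_mul, eval_sub, eval_X, eval_C]
    rcases le_or_gt (g j) c with h4 | h4
    · exact mul_nonneg_of_nonpos_of_nonpos (by linarith) (by linarith)
    · exact mul_nonneg (by linarith) (by linarith [hne j h4])

theorem below {g M : ℕ → ℝ} {n : ℕ} (h : PM g M n) {q : ℝ[X]}
    (hq : Ex g M n 0 q) {c : ℝ} (hc : q.eval c = 0) : ∃ j, g j < c := by
  by_contra hne
  push Not at hne
  obtain ⟨T, hT⟩ := (dvd_iff_isRoot.2 hc : (X - C c) ∣ q)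
  have hT0 : T ≠ 0 := by
    rintro rfl
    exact ne_zero hq (by rw [hT, mul_zero])
  have hdeg : q.natDegree = 1 + T.natDegree := by
    rw [hT, (monic_X_sub_C c).natDegree_mul' hT0, natDegree_X_sub_C]
  have hq1 := hq.1
  refine contra h hq (X * T) ?_ (by simp) ?_ ?_
  · refine Polynomial.natDegree_mul_le.trans ?_
    rw [natDegree_X]
    omega
  · intro j
    have h1 : (q * (X * T)).eval (g j) = (g j - c) * (g j * T.eval (g j) ^ 2) := by
      rw [hT]
      simp only [eval_mul, eval_sub, eval_X, eval_C]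
      ring
    rw [h1]
    exact mul_nonneg (by linarith [hne j]) (mul_nonneg (gpos h j).le (sq_nonneg _))
  · intro j hj
    rw [eval_mul, eval_mul, eval_X] at hj
    rcases mul_eq_zero.1 hj with h3 | h3
    · exact h3
    · rcases mul_eq_zero.1 h3 with h4 | h4
      · exact absurd h4 (gpos h j).ne'
      · rw [hT, eval_mul, h4, mul_zero]

theorem zer : S_Zer := by
  intro g M n h t q ht hq
  have hsp : q.Splits := splits_of_real (real_rooted h ht hq)
  have hnd := roots_nodup h ht hq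
  have hcard : q.roots.toFinset.card = q.natDegree := by
    rw [Multiset.toFinset_card_of_nodup hnd, hsp.natDegree_eq_card_roots]
  set d := q.natDegree with hd
  set e := q.roots.toFinset.orderEmbOfFin hcard with he
  set c : ℕ → ℝ := fun j => if hj : j < d then e ⟨j, hj⟩ else 0 with hc
  have hce : ∀ j (hj : j < d), c j = e ⟨j, hj⟩ := fun j hj => by
    simp only [hc, dif_pos hj]
  have hroot : ∀ j, j < d → q.eval (c j) = 0 := by
    intro j hj
    rw [hce j hj]
    have h1 : e ⟨j, hj⟩ ∈ q.roots.toFinset := Finset.orderEmbOfFin_mem _ _ _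
    rw [Multiset.mem_toFinset, mem_roots'] at h1
    exact h1.2
  have hmono : ∀ i j, i < j → j < d → c i < c j := by
    intro i j hij hj
    rw [hce i (hij.trans hj), hce j hj]
    exact e.strictMono (by exact_mod_cast hij)
  have hstep : ∀ j, j + 1 < d → ∀ k, g k ≤ c j ∨ g k < c j → g (k + 1) < c (j + 1) := by
    intro j hj k hk
    obtain ⟨i, hi1, hi2⟩ := between h ht hq (hroot j (by omega)) (hroot (j + 1) hj)
      (hmono j (j + 1) (Nat.lt_succ_self j) hj)
    have h1 : g k < g i := by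
      rcases hk with hk | hk
      · exact hk.trans_lt hi1
      · exact hk.trans hi1
    have h2 : k < i := h.mono.lt_iff_lt.1 h1
    exact (h.mono.monotone h2).trans_lt hi2
  refine ⟨c, q.leadingCoeff, leadingCoeff_ne_zero.2 (ne_zero hq), ?_, hmono, ?_, ?_⟩
  · conv_lhs => rw [hsp.eq_prod_roots]
    congr 1
    have h1 : (q.roots.map fun x => X - C x).prod = ∏ x ∈ q.roots.toFinset, (X - C x) := by
      rw [Finset.prod, Multiset.toFinset_val, Multiset.Nodup.dedup hnd]
    rw [h1, ← Finset.map_orderEmbOfFin_univ q.roots.toFinset hcard, Finset.prod_map,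
      Finset.prod_range]
    refine Finset.prod_congr rfl fun i _ => ?_
    rw [hce i i.2]
    rfl
  · intro j
    induction j with
    | zero =>
      intro hj
      obtain ⟨i, hi1, hi2⟩ := between h ht hq (hroot 0 (by omega)) (hroot 1 hj)
        (hmono 0 1 (by omega) hj)
      exact (h.mono.monotone (Nat.zero_le i)).trans_lt hi2
    | succ j ih =>
      intro hj
      exact hstep (j + 1) hj j (Or.inr (ih (by omega)))
  · rintro rfl j
    induction j with
    | zero =>
      intro hj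
      obtain ⟨i, hi⟩ := below h hq (hroot 0 hj)
      exact (h.mono.monotone (Nat.zero_le i)).trans_lt hi
    | succ j ih =>
      intro hj
      exact hstep j hj j (Or.inr (ih (by omega)))

end Pool.Agent.Q95.CD
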